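import Mathlib

/-!
# MP_945a85_co: a closed non-circular locus whose distance graph consists of hexagons

Let `A` be the planar curve `w ↦ w + w³/10` (`w` on the unit circle of `ℂ`), placed in the plane
`x₃ = 0` of `E³`, and let `B = A + e₃`.  With `d = 2`, every point of `A ∪ B` has exactly two
neighbours in `G_d` and every component of `G_d` is finite, although `A` and `B` are not circles.
-/

namespace Pool.Agent.Results.MP_945a85_co.HexagonCurves

open Complex

/-- Euclidean `n`-space. -/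
abbrev E (n : ℕ) : Type := EuclideanSpace ℝ (Fin n)

/-- A simple closed locus: the image of an injective continuous map from the circle. -/
def IsSimpleClosedLocus {n : ℕ} (A : Set (E n)) : Prop :=
  ∃ γ : Circle → E n, Continuous γ ∧ Function.Injective γ ∧ A = Set.range γ

/-- Homothetic sets. -/
def Homothetic {n : ℕ} (A B : Set (E n)) : Prop :=
  ∃ (r : ℝ) (v : E n), r ≠ 0 ∧ B = (fun x => r • x + v) '' A

/-- A (round) circle in `Eⁿ`: the points of a two-dimensional affine subspace at a fixed positive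
distance from one of its points. -/
def IsCircle {n : ℕ} (A : Set (E n)) : Prop :=
  ∃ (P : AffineSubspace ℝ (E n)) (c : E n) (r : ℝ), Module.finrank ℝ P.direction = 2 ∧
    c ∈ P ∧ 0 < r ∧ A = {x : E n | x ∈ P ∧ dist x c = r}

/-- The distance graph `G_d` on `A ∪ B`. -/
def distGraph {n : ℕ} (A B : Set (E n)) (d : ℝ) : SimpleGraph ↥(A ∪ B) where
  Adj x y := x ≠ y ∧ (((x : E n) ∈ A ∧ (y : E n) ∈ B) ∨ ((x : E n) ∈ B ∧ (y : E n) ∈ A)) ∧
    dist (x : E n) (y : E n) = d
  symm := ⟨fun x y h => ⟨h.1.symm, by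
    rcases h.2.1 with h1 | h1
    · exact Or.inr ⟨h1.2, h1.1⟩
    · exact Or.inl ⟨h1.2, h1.1⟩, by rw [dist_comm]; exact h.2.2⟩⟩
  loopless := ⟨fun x h => h.1 rfl⟩

/-- the point of `E³` over the complex number `z` at height `t` -/
noncomputable def pt (t : ℝ) (z : ℂ) : E 3 := !₂[z.re, z.im, t]

/-- the planar curve -/
noncomputable def p (w : ℂ) : ℂ := w + w ^ 3 / 10

theorem dist_pt (s t : ℝ) (z w : ℂ) :
    dist (pt s z) (pt t w) ^ 2 = normSq (z - w) + (s - t) ^ 2 := by
  rw [EuclideanSpace.dist_eq, Real.sq_sqrt (by positivity)]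
  simp only [pt, Fin.sum_univ_three, Real.dist_eq, sq_abs, normSq_apply, sub_re, sub_im]
  simp
  ring

theorem pt_inj {s t : ℝ} {z w : ℂ} (h : pt s z = pt t w) : s = t ∧ z = w := by
  have h0 := dist_pt s t z w
  rw [h, dist_self] at h0
  have h1 : normSq (z - w) = 0 := by nlinarith [normSq_nonneg (z - w), sq_nonneg (s - t)]
  have h2 : (s - t) ^ 2 = 0 := by nlinarith [normSq_nonneg (z - w), sq_nonneg (s - t)]
  constructor
  · have := pow_eq_zero_iff (two_ne_zero) |>.1 h2
    linarith
  · have := normSq_eq_zero.1 h1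
    exact sub_eq_zero.1 this

/-- key identity -/
theorem normSq_p (z w : ℂ) (hz : normSq z = 1) (hw : normSq w = 1) :
    normSq (p z - p w) = (3 - (1 + 2 * (z * (starRingEnd ℂ) w).re)) *
      (1 + 2 * (1 / 10) * (1 + 2 * (z * (starRingEnd ℂ) w).re) * (z * w).re +
        (1 / 10) ^ 2 * (1 + 2 * (z * (starRingEnd ℂ) w).re) ^ 2) := by
  obtain ⟨a, b⟩ := z
  obtain ⟨c, d⟩ := w
  simp only [normSq_apply] at hz hw
  have e : p ⟨a, b⟩ - p ⟨c, d⟩ =
      (⟨a, b⟩ - ⟨c, d⟩ : ℂ) * (1 + (⟨a, b⟩ ^ 2 + ⟨a, b⟩ * ⟨c, d⟩ + ⟨c, d⟩ ^ 2) / 10) := by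
    unfold p; ring
  rw [e, map_mul]
  have e1 : normSq ((⟨a, b⟩ : ℂ) - ⟨c, d⟩) = 2 - 2 * (a * c + b * d) := by
    simp only [normSq_apply, sub_re, sub_im]
    linear_combination hz + hw
  have e2 : (⟨a, b⟩ ^ 2 + ⟨a, b⟩ * ⟨c, d⟩ + ⟨c, d⟩ ^ 2 : ℂ) =
      ((1 + 2 * (a * c + b * d) : ℝ) : ℂ) * (⟨a, b⟩ * ⟨c, d⟩) := by
    apply Complex.ext
    · simp [pow_two]
      linear_combination (-(c*c) + d * d) * hz + (-(a*a) + b * b) * hw
    · simp [pow_two]
      linear_combination (-2 * c * d) * hz + (- 2 * a * b) * hw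
  rw [e2, e1]
  have e3 : normSq (1 + ((1 + 2 * (a * c + b * d) : ℝ) : ℂ) * ((⟨a, b⟩ : ℂ) * ⟨c, d⟩) / 10) =
      1 + 2 * (1 / 10) * (1 + 2 * (a * c + b * d)) * (a * c - b * d) +
        (1 / 10) ^ 2 * (1 + 2 * (a * c + b * d)) ^ 2 := by
    have hzw : (a * c - b * d) ^ 2 + (a * d + b * c) ^ 2 = 1 := by
      linear_combination (c * c + d * d) * hz + hw
    have r1 : (1 + ((1 + 2 * (a * c + b * d) : ℝ) : ℂ) * ((⟨a, b⟩ : ℂ) * ⟨c, d⟩) / 10) =
        ⟨1 + (1 + 2 * (a * c + b * d)) * (a * c - b * d) / 10,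
          (1 + 2 * (a * c + b * d)) * (a * d + b * c) / 10⟩ := by
      apply Complex.ext
      · simp
      · simp
    rw [r1]
    simp only [normSq_apply]
    linear_combination ((1 + 2 * (a * c + b * d)) ^ 2 / 100) * hzw
  rw [e3]
  have h1 : ((⟨a, b⟩ : ℂ) * (starRingEnd ℂ) ⟨c, d⟩).re = a * c + b * d := by simp
  have h2 : ((⟨a, b⟩ : ℂ) * ⟨c, d⟩).re = a * c - b * d := by simp
  rw [h1, h2]
  ring

/-- The primitive cube root of unity. -/
noncomputable def om : ℂ := ⟨-(1 / 2), √3 / 2⟩

theorem om_sq : om ^ 2 = -1 - om := by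
  have h3 : √3 * √3 = 3 := Real.mul_self_sqrt (by norm_num)
  apply Complex.ext
  · simp [om, pow_two]; nlinarith
  · simp [om, pow_two]; ring

theorem om_cube : om ^ 3 = 1 := by
  have : om ^ 3 = om ^ 2 * om := by ring
  rw [this, om_sq]
  have : (-1 - om) * om = -om - om ^ 2 := by ring
  rw [this, om_sq]
  ring

theorem normSq_om : normSq om = 1 := by
  have h3 : √3 * √3 = 3 := Real.mul_self_sqrt (by norm_num)
  simp [om, normSq_apply]
  nlinarith

theorem normSq_om_mul (w : ℂ) : normSq (om * w) = normSq w := by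
  rw [map_mul, normSq_om, one_mul]

/-- On the unit circle, `|p z - p w|² = 3` iff `z = ω w` or `z = ω² w`. -/
theorem normSq_p_eq_three (z w : ℂ) (hz : normSq z = 1) (hw : normSq w = 1) :
    normSq (p z - p w) = 3 ↔ z = om * w ∨ z = om * (om * w) := by
  have key := normSq_p z w hz hw
  set y := 1 + 2 * (z * (starRingEnd ℂ) w).re with hy
  set c := (z * w).re with hc
  have hc1 : |c| ≤ 1 := by
    have h1 : ‖z * w‖ = 1 := by
      have : normSq (z * w) = 1 := by rw [map_mul, hz, hw, one_mul]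
      rw [normSq_eq_norm_sq] at this
      nlinarith [norm_nonneg (z * w)]
    calc |c| ≤ ‖z * w‖ := abs_re_le_norm _
      _ = 1 := h1
  have hy1 : |(z * (starRingEnd ℂ) w).re| ≤ 1 := by
    have h1 : ‖z * (starRingEnd ℂ) w‖ = 1 := by
      have : normSq (z * (starRingEnd ℂ) w) = 1 := by
        rw [map_mul, hz, normSq_conj, hw, one_mul]
      rw [normSq_eq_norm_sq] at this
      nlinarith [norm_nonneg (z * (starRingEnd ℂ) w)]
    calc |(z * (starRingEnd ℂ) w).re| ≤ ‖z * (starRingEnd ℂ) w‖ := abs_re_le_norm _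
      _ = 1 := h1
  have hylo : -1 ≤ y := by rw [hy]; linarith [(abs_le.1 hy1).1]
  have hyhi : y ≤ 3 := by rw [hy]; linarith [(abs_le.1 hy1).2]
  obtain ⟨hc2, hc3⟩ := abs_le.1 hc1
  have step1 : normSq (p z - p w) = 3 ↔ y = 0 := by
    rw [key]
    constructor
    · intro h
      by_contra hne
      have h2 : y * ((3 - y) * (2 * (1 / 10) * c + (1 / 10) ^ 2 * y) - 1) = 0 := by
        linear_combination h
      have h3 : (3 - y) * (2 * (1 / 10) * c + (1 / 10) ^ 2 * y) = 1 := by
        rcases mul_eq_zero.1 h2 with h4 | h4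
        · exact absurd h4 hne
        · linarith
      have h5 : 2 * (1 / 10) * c + (1 / 10) ^ 2 * y ≤ 23 / 100 := by nlinarith
      nlinarith
    · intro h
      rw [h]; norm_num
  have step2 : y = 0 ↔ z ^ 2 + z * w + w ^ 2 = 0 := by
    have e2 : z ^ 2 + z * w + w ^ 2 = (y : ℂ) * (z * w) := by
      rw [hy]
      obtain ⟨a, b⟩ := z
      obtain ⟨c', d⟩ := w
      simp only [normSq_apply] at hz hw
      apply Complex.ext
      · simp [pow_two]
        linear_combination (-(c'*c') + d * d) * hz + (-(a*a) + b * b) * hw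
      · simp [pow_two]
        linear_combination (-2 * c' * d) * hz + (- 2 * a * b) * hw
    have hz0 : z ≠ 0 := by rintro rfl; simp at hz
    have hw0 : w ≠ 0 := by rintro rfl; simp at hw
    rw [e2]
    constructor
    · intro h; rw [h]; simp
    · intro h
      rcases mul_eq_zero.1 h with h1 | h1
      · exact_mod_cast h1
      · exact absurd h1 (mul_ne_zero hz0 hw0)
  rw [step1, step2]
  have fact : z ^ 2 + z * w + w ^ 2 = (z - om * w) * (z - om * (om * w)) := by
    have h3 := om_cube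
    have h2 := om_sq
    have : (z - om * w) * (z - om * (om * w)) = z ^ 2 - (om + om ^ 2) * (z * w) + om ^ 3 * w ^ 2 := by
      ring
    rw [this, h3, h2]; ring
  rw [fact, mul_eq_zero, sub_eq_zero, sub_eq_zero]

/-- `p` is injective on the unit circle. -/
theorem p_inj (z w : ℂ) (hz : normSq z = 1) (hw : normSq w = 1) (h : p z = p w) : z = w := by
  have e : (z - w) * (1 + (z ^ 2 + z * w + w ^ 2) / 10) = 0 := by
    have : (z - w) * (1 + (z ^ 2 + z * w + w ^ 2) / 10) = p z - p w := by unfold p; ring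
    rw [this, h, sub_self]
  rcases mul_eq_zero.1 e with h1 | h1
  · exact sub_eq_zero.1 h1
  · exfalso
    have nz : ‖z‖ = 1 := by
      rw [normSq_eq_norm_sq] at hz; nlinarith [norm_nonneg z]
    have nw : ‖w‖ = 1 := by
      rw [normSq_eq_norm_sq] at hw; nlinarith [norm_nonneg w]
    have h2 : z ^ 2 + z * w + w ^ 2 = -10 := by linear_combination 10 * h1
    have h3 : ‖z ^ 2 + z * w + w ^ 2‖ ≤ 3 := by
      calc ‖z ^ 2 + z * w + w ^ 2‖ ≤ ‖z ^ 2‖ + ‖z * w‖ + ‖w ^ 2‖ := norm_add₃_le
        _ = 3 := by rw [norm_pow, norm_mul, norm_pow, nz, nw]; norm_num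
    rw [h2] at h3
    norm_num at h3

/-- the lower curve -/
noncomputable def lo (w : Circle) : E 3 := pt 0 (p w)

/-- the upper curve -/
noncomputable def hi (w : Circle) : E 3 := pt 1 (p w)

/-- the locus `A` -/
def A : Set (E 3) := Set.range lo

/-- the locus `B` -/
def B : Set (E 3) := Set.range hi

theorem circle_normSq (w : Circle) : normSq (w : ℂ) = 1 := by
  rw [normSq_eq_norm_sq, Circle.norm_coe]; norm_num

theorem lo_inj : Function.Injective lo := by
  intro z w h
  have := (pt_inj h).2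
  exact Circle.ext (p_inj _ _ (circle_normSq z) (circle_normSq w) this)

theorem hi_inj : Function.Injective hi := by
  intro z w h
  have := (pt_inj h).2
  exact Circle.ext (p_inj _ _ (circle_normSq z) (circle_normSq w) this)

theorem lo_ne_hi (z w : Circle) : lo z ≠ hi w := by
  intro h
  have := (pt_inj h).1
  norm_num at this

/-- `ω` as a point of the unit circle -/
noncomputable def Om : Circle := ⟨om, by
  have := normSq_om
  rw [normSq_eq_norm_sq] at this
  rw [Submonoid.unitSphere, Submonoid.mem_mk, Subsemigroup.mem_mk, mem_sphere_zero_iff_norm]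
  nlinarith [norm_nonneg om]⟩

theorem Om_coe : (Om : ℂ) = om := rfl

theorem Om_cube : Om ^ 3 = 1 := by
  apply Circle.ext
  rw [Circle.coe_pow, Om_coe, om_cube, Circle.coe_one]

theorem Om_ne_one : Om ≠ 1 := by
  intro h
  have h1 : (Om : ℂ) = 1 := by rw [h, Circle.coe_one]
  rw [Om_coe] at h1
  have := congrArg Complex.re h1
  simp [om] at this
  norm_num at this

/-- the vertices of the distance graph: level `b`, parameter `w` -/
noncomputable def V (b : Bool) (w : Circle) : ↥(A ∪ B) :=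
  match b with
  | false => ⟨lo w, Or.inl ⟨w, rfl⟩⟩
  | true => ⟨hi w, Or.inr ⟨w, rfl⟩⟩

theorem exists_V (x : ↥(A ∪ B)) : ∃ b w, x = V b w := by
  obtain ⟨x, hx | hx⟩ := x
  · obtain ⟨w, rfl⟩ := hx
    exact ⟨false, w, rfl⟩
  · obtain ⟨w, rfl⟩ := hx
    exact ⟨true, w, rfl⟩

theorem V_inj {b c : Bool} {z w : Circle} (h : V b z = V c w) : b = c ∧ z = w := by
  cases b <;> cases c
  · exact ⟨rfl, lo_inj (congrArg Subtype.val h)⟩
  · exact absurd (congrArg Subtype.val h) (lo_ne_hi _ _)
  · exact absurd (congrArg Subtype.val h).symm (lo_ne_hi _ _)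
  · exact ⟨rfl, hi_inj (congrArg Subtype.val h)⟩

theorem dist_lo_hi (z w : Circle) : dist (lo z) (hi w) = 2 ↔
    w = Om * z ∨ w = Om * (Om * z) := by
  have h1 := dist_pt 0 1 (p z) (p w)
  have h2 := normSq_p_eq_three (w : ℂ) z (circle_normSq w) (circle_normSq z)
  have h3 : normSq (p (w : ℂ) - p z) = normSq (p z - p w) := by
    rw [← neg_sub, normSq_neg]
  rw [h3] at h2
  have h4 : dist (lo z) (hi w) = 2 ↔ normSq (p (z : ℂ) - p w) = 3 := by
    unfold lo hi
    constructor
    · intro h; rw [h] at h1; linarith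
    · intro h
      rw [h] at h1
      have h5 : dist (pt 0 (p z)) (pt 1 (p w)) ^ 2 = 4 := by rw [h1]; norm_num
      nlinarith [dist_nonneg (x := pt 0 (p z)) (y := pt 1 (p w))]
  rw [h4, h2]
  constructor
  · rintro (h | h)
    · left; apply Circle.ext; rw [h]; simp [Om_coe]
    · right; apply Circle.ext; rw [h]; simp [Om_coe]
  · rintro (h | h)
    · left; rw [h]; simp [Om_coe]
    · right; rw [h]; simp [Om_coe]

theorem dist_hi_lo (z w : Circle) : dist (hi z) (lo w) = 2 ↔
    w = Om * z ∨ w = Om * (Om * z) := by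
  rw [dist_comm, dist_lo_hi]
  have h3 := Om_cube
  constructor
  · rintro (h | h)
    · right
      rw [h]
      calc w = Om ^ 3 * w := by rw [h3, one_mul]
        _ = _ := by simp only [pow_succ, pow_zero, one_mul, mul_assoc]
    · left
      rw [h]
      calc w = Om ^ 3 * w := by rw [h3, one_mul]
        _ = _ := by simp only [pow_succ, pow_zero, one_mul, mul_assoc]
  · rintro (h | h)
    · right
      rw [h]
      calc z = Om ^ 3 * z := by rw [h3, one_mul]
        _ = _ := by simp only [pow_succ, pow_zero, one_mul, mul_assoc]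
    · left
      rw [h]
      calc z = Om ^ 3 * z := by rw [h3, one_mul]
        _ = _ := by simp only [pow_succ, pow_zero, one_mul, mul_assoc]

theorem hi_not_mem_A (w : Circle) : hi w ∉ A := by
  rintro ⟨z, hz⟩
  exact lo_ne_hi _ _ hz

theorem lo_not_mem_B (w : Circle) : lo w ∉ B := by
  rintro ⟨z, hz⟩
  exact lo_ne_hi _ _ hz.symm

/-- the neighbours of a vertex -/
theorem adj_iff (b : Bool) (w : Circle) (y : ↥(A ∪ B)) :
    (distGraph A B 2).Adj (V b w) y ↔ y = V (!b) (Om * w) ∨ y = V (!b) (Om * (Om * w)) := by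
  obtain ⟨c, z, rfl⟩ := exists_V y
  constructor
  · rintro ⟨hne, hAB, hd⟩
    cases b <;> cases c
    · rcases hAB with h | h
      · exact absurd h.2 (lo_not_mem_B _)
      · exact absurd h.1 (lo_not_mem_B _)
    · rcases (dist_lo_hi w z).1 hd with h | h
      · left; rw [h]; rfl
      · right; rw [h]; rfl
    · rcases (dist_hi_lo w z).1 hd with h | h
      · left; rw [h]; rfl
      · right; rw [h]; rfl
    · rcases hAB with h | h
      · exact absurd h.1 (hi_not_mem_A _)
      · exact absurd h.2 (hi_not_mem_A _)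
  · intro h
    have h' : c = !b ∧ (z = Om * w ∨ z = Om * (Om * w)) := by
      rcases h with h | h
      · exact ⟨(V_inj h).1, Or.inl (V_inj h).2⟩
      · exact ⟨(V_inj h).1, Or.inr (V_inj h).2⟩
    obtain ⟨rfl, h''⟩ := h'
    refine ⟨?_, ?_, ?_⟩
    · intro he
      have := (V_inj he).1
      cases b <;> simp at this
    · cases b
      · exact Or.inl ⟨⟨w, rfl⟩, ⟨z, rfl⟩⟩
      · exact Or.inr ⟨⟨w, rfl⟩, ⟨z, rfl⟩⟩
    · cases b
      · exact (dist_lo_hi w z).2 h''
      · exact (dist_hi_lo w z).2 h''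

theorem neighbor_ncard (v : ↥(A ∪ B)) : ((distGraph A B 2).neighborSet v).ncard = 2 := by
  obtain ⟨b, w, rfl⟩ := exists_V v
  have : (distGraph A B 2).neighborSet (V b w) = {V (!b) (Om * w), V (!b) (Om * (Om * w))} := by
    ext y
    rw [SimpleGraph.mem_neighborSet, adj_iff]
    simp
  rw [this, Set.ncard_pair]
  intro h
  have := (V_inj h).2
  have h2 := mul_right_cancel (b := w) (a := Om) (c := Om * Om) (by rw [this, mul_assoc])
  apply Om_ne_one
  calc Om = Om⁻¹ * (Om * Om) := by group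
    _ = Om⁻¹ * Om := by rw [← h2]
    _ = 1 := by group

theorem component_finite (c : (distGraph A B 2).ConnectedComponent) : c.supp.Finite := by
  induction c using SimpleGraph.ConnectedComponent.ind with
  | h v =>
    obtain ⟨b, w, rfl⟩ := exists_V v
    let T : Set ↥(A ∪ B) := Set.range (fun q : Bool × Fin 3 => V q.1 (Om ^ (q.2 : ℕ) * w))
    have hT : T.Finite := Set.finite_range _
    have hmod : ∀ k : ℕ, Om ^ k = Om ^ (k % 3) := by
      intro k
      conv_lhs => rw [← Nat.div_add_mod k 3, pow_add, pow_mul, Om_cube, one_pow, one_mul]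
    have hin : ∀ (b : Bool) (k : ℕ), V b (Om ^ k * w) ∈ T := by
      intro b k
      refine ⟨(b, ⟨k % 3, Nat.mod_lt _ (by norm_num)⟩), ?_⟩
      simp only
      rw [← hmod]
    have hclosed : ∀ x y : ↥(A ∪ B), x ∈ T → (distGraph A B 2).Adj x y → y ∈ T := by
      rintro x y ⟨⟨b', k⟩, rfl⟩ hxy
      simp only at hxy
      rw [adj_iff] at hxy
      rcases hxy with rfl | rfl
      · have : Om * (Om ^ (k : ℕ) * w) = Om ^ ((k : ℕ) + 1) * w := by
          rw [pow_succ']; group
        rw [this]; exact hin _ _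
      · have : Om * (Om * (Om ^ (k : ℕ) * w)) = Om ^ ((k : ℕ) + 1 + 1) * w := by
          rw [pow_succ', pow_succ']; group
        rw [this]; exact hin _ _
    have hreach : ∀ x y : ↥(A ∪ B), (distGraph A B 2).Walk x y → x ∈ T → y ∈ T := by
      intro x y p
      induction p with
      | nil => exact id
      | cons h p ih => intro hx; exact ih (hclosed _ _ hx h)
    refine hT.subset ?_
    intro y hy
    rw [SimpleGraph.ConnectedComponent.mem_supp_iff, SimpleGraph.ConnectedComponent.eq] at hy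
    obtain ⟨p⟩ := hy.symm
    refine hreach _ _ p ?_
    have := hin b 0
    simpa using this

theorem continuous_pt (t : ℝ) (f : Circle → ℂ) (hf : Continuous f) :
    Continuous (fun w => pt t (f w)) := by
  unfold pt
  apply (PiLp.continuous_toLp 2 _).comp
  apply continuous_pi
  intro i
  fin_cases i
  · exact continuous_re.comp hf
  · exact continuous_im.comp hf
  · exact continuous_const

theorem continuous_p : Continuous (fun w : Circle => p (w : ℂ)) := by
  unfold p
  have : Continuous (fun w : Circle => (w : ℂ)) := by fun_prop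
  fun_prop

/-- No sphere contains the curve at height `t`. -/
theorem not_isCircle (t : ℝ) : ¬ IsCircle (Set.range (fun w : Circle => pt t (p w))) := by
  rintro ⟨P, c, r, -, -, -, h⟩
  have hmem : ∀ w : Circle, dist (pt t (p w)) c ^ 2 = r ^ 2 := by
    intro w
    have : pt t (p w) ∈ {x : E 3 | x ∈ P ∧ dist x c = r} := by rw [← h]; exact ⟨w, rfl⟩
    rw [this.2]
  have hform : ∀ z : ℂ, dist (pt t z) c ^ 2 =
      (z.re - c 0) ^ 2 + (z.im - c 1) ^ 2 + (t - c 2) ^ 2 := by
    intro z
    rw [EuclideanSpace.dist_eq, Real.sq_sqrt (by positivity)]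
    simp only [pt, Fin.sum_univ_three, Real.dist_eq, sq_abs]
    simp
  have e1 := hmem 1
  have e2 := hmem (-1)
  have e3 := hmem (Circle.exp (Real.pi / 2))
  have e4 := hmem (-Circle.exp (Real.pi / 2))
  have hI : ((Circle.exp (Real.pi / 2) : Circle) : ℂ) = I := by
    rw [Circle.coe_exp]
    push_cast
    exact Complex.exp_pi_div_two_mul_I
  have hI3 : I ^ 3 = -I := by
    have : I ^ 3 = I ^ 2 * I := by ring
    rw [this, I_sq]; ring
  rw [hform] at e1 e2 e3 e4
  simp only [p, Circle.coe_one, Circle.coe_neg, hI] at e1 e2 e3 e4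
  have a1 : ((1 : ℂ) + 1 ^ 3 / 10) = ((11 / 10 : ℝ) : ℂ) := by push_cast; norm_num
  have a2 : ((-1 : ℂ) + (-1) ^ 3 / 10) = ((-(11 / 10) : ℝ) : ℂ) := by push_cast; norm_num
  have a3 : (I + I ^ 3 / 10) = ((9 / 10 : ℝ) : ℂ) * I := by rw [hI3]; push_cast; ring
  have a4 : (-I + (-I) ^ 3 / 10) = ((-(9 / 10) : ℝ) : ℂ) * I := by
    have : (-I) ^ 3 = I := by
      have : (-I) ^ 3 = - (I ^ 3) := by ring
      rw [this, hI3]; ring
    rw [this]; push_cast; ring
  rw [a1] at e1
  rw [a2] at e2
  rw [a3] at e3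
  rw [a4] at e4
  simp at e1 e2 e3 e4
  nlinarith

/-- **Disproof of Q1 of MP_945a85_co.**  There are `d > 0` and homothetic (even congruent by a
translation) simple closed loci `A, B ⊂ E³` such that every point of `A ∪ B` has exactly two
neighbours in `G_d`, all components of `G_d` are finite, and neither `A` nor `B` is a circle. -/
theorem result : ∃ (A B : Set (E 3)) (d : ℝ), 0 < d ∧
    IsSimpleClosedLocus A ∧ IsSimpleClosedLocus B ∧ Homothetic A B ∧
    (∀ v : ↥(A ∪ B), ((distGraph A B d).neighborSet v).ncard = 2) ∧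
    (∀ c : (distGraph A B d).ConnectedComponent, c.supp.Finite) ∧
    ¬ IsCircle A ∧ ¬ IsCircle B := by
  refine ⟨A, B, 2, by norm_num, ⟨lo, ?_, lo_inj, rfl⟩, ⟨hi, ?_, hi_inj, rfl⟩, ?_,
    neighbor_ncard, component_finite, not_isCircle 0, not_isCircle 1⟩
  · exact continuous_pt 0 _ continuous_p
  · exact continuous_pt 1 _ continuous_p
  · refine ⟨1, !₂[0, 0, 1], one_ne_zero, ?_⟩
    ext x
    constructor
    · rintro ⟨w, rfl⟩
      refine ⟨lo w, ⟨w, rfl⟩, ?_⟩
      simp only [one_smul]
      ext i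
      fin_cases i <;> simp [lo, hi, pt]
    · rintro ⟨_, ⟨w, rfl⟩, rfl⟩
      refine ⟨w, ?_⟩
      simp only [one_smul]
      ext i
      fin_cases i <;> simp [lo, hi, pt]

end Pool.Agent.Results.MP_945a85_co.HexagonCurves
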